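import Pool.Agent.W838.DC.Slice
import Pool.Agent.W838.DC.TabChk

set_option autoImplicit false

/-!
# The rank three statements FX, FY, F1 from the slices
-/

namespace Pool.Agent.W368.DC

open Pool.Agent.W838.DC Sys Tab

variable {V X : Type*} [AddCommGroup V] {σ : Sys V X}

theorem mem_r24 {g : ℕ} (h : g < 24) : g ∈ r24 := by
  unfold r24; interval_cases g <;> simp

theorem mem_r6 {g : ℕ} (h : g < 6) : g ∈ r6 := by
  unfold r6; interval_cases g <;> simp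

theorem run {chk : ℕ → ℕ → Bool} (h : runYM chk = true) {Y m : ℕ} (hY : (Y, m) ∈ YM) {g : ℕ}
    (hg : g < 24) (hb : bit m g = true) : chk Y g = true := by
  unfold runYM at h
  rw [List.all_eq_true] at h
  have h1 := h _ hY
  rw [List.all_eq_true] at h1
  have h2 := h1 g (mem_r24 hg)
  simpa [hb] using h2

/-- `ip = -1` in the slice -/
theorem ip0 (sl : Slice σ) {i j : ℕ} (hi : i < 6) (hj : j < 6) (h : σ.ip (sl.ρ i) (sl.ρ j) = -1) :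
    ipN i j = 0 ∧ addN i j < 6 ∧ sl.ρ i + sl.ρ j = sl.ρ (addN i j) := by
  have h1 := sl.ipρ i hi j hj
  have h2 : ipN i j = 0 := by omega
  have h3 := addN_lt i hi j hj h2
  exact ⟨h2, h3, sl.addρ i hi j hj (by omega)⟩

theorem ip1 (sl : Slice σ) {i j : ℕ} (hi : i < 6) (hj : j < 6) (h : σ.ip (sl.ρ i) (sl.ρ j) = 0) :
    ipN i j = 1 := by
  have h1 := sl.ipρ i hi j hj
  omega

theorem nbit {Y g : ℕ} {p : Prop} (h : bit Y g = true ↔ p) (hp : ¬ p) : bit Y g = false := by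
  cases hb : bit Y g
  · rfl
  · exact absurd (h.1 hb) hp

theorem fx (σ : Sys V X) (h1 : S_SLICE σ) (h2 : S_SLY σ) (h3 : S_TR σ) : S_FX σ := by
  intro x hx a n b hRa hNn hPb han hnb hab hPa hPan hRnb hPnb
  obtain ⟨sl, ⟨g, hg, rfl⟩, ia, inn, ib⟩ := h1 a hRa.1 n hNn.1 b hPb.1.1 han hnb hab x
  obtain ⟨i, hi, rfl⟩ := ia.pos sl hRa.2.1
  obtain ⟨j, hj, rfl⟩ := inn.pos sl hNn.2.1
  obtain ⟨k, hk, rfl⟩ := ib.pos sl hPb.1.2.1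
  obtain ⟨Y, m, hY⟩ := h2 sl
  have tr := fun z hz => (h3 sl Y hY.P g hg).2 z hz
  obtain ⟨ij0, ij6, eij⟩ := ip0 sl hi hj han
  obtain ⟨jk0, jk6, ejk⟩ := ip0 sl hj hk hnb
  have ik1 := ip1 sl hi hk hab
  rw [eij] at hPan ⊢
  rw [ejk] at hPnb hRnb
  rw [sl.eT g hg _ hi] at hPa
  rw [sl.eT g hg _ jk6] at hPnb
  rw [sl.eT g hg _ hk, sl.eT _ (T_lt g hg k hk) _ ij6]
  have hP : σ.P (sl.e g) := P_of_R σ hPb.1 hPb.2
  have hbit := (hY.P g hg).2 hP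
  have hreg := hY.reg g hg hbit hx
  have hc := run chkFX_true hY.mem hg hreg
  unfold chkFX at hc
  have c1 := List.all_eq_true.1 hc j (mem_r6 hj)
  rw [(tr j hj).2.2.1.2 hNn, Bool.false_or] at c1
  have c2 := List.all_eq_true.1 c1 k (mem_r6 hk)
  rw [(tr k hk).1.2 hPb, jk0, nbit (hY.P _ (T_lt g hg _ jk6)) hPnb, (tr _ jk6).2.1.2 hRnb] at c2
  simp only [Bool.not_true, beq_self_eq_true, Bool.false_or] at c2
  have c3 := List.all_eq_true.1 c2 i (mem_r6 hi)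
  rw [(tr i hi).2.1.2 hRa, ij0, ik1, nbit (hY.P _ (T_lt g hg _ hi)) hPa, (tr _ ij6).1.2 hPan] at c3
  simp only [Bool.not_true, beq_self_eq_true, Bool.false_or, Bool.not_eq_true'] at c3
  intro hcon
  rw [(hY.P _ (T_lt _ (T_lt g hg k hk) _ ij6)).2 hcon] at c3
  exact absurd c3 (by decide)

theorem fy (σ : Sys V X) (h1 : S_SLICE σ) (h2 : S_SLY σ) (h3 : S_TR σ) : S_FY σ := by
  intro x hx z f y hA hPy hzy hfy hfyP
  obtain ⟨sl, ⟨g, hg, rfl⟩, iz, iff, iy⟩ := h1 z hA.1.1.1 f hA.2.1.1.1 y hPy.1.1 hA.2.2.1 hfy hzy x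
  obtain ⟨i, hi, rfl⟩ := iz.pos sl hA.1.1.2.1
  obtain ⟨j, hj, rfl⟩ := iff.pos sl hA.2.1.1.2.1
  obtain ⟨k, hk, rfl⟩ := iy.pos sl hPy.1.2.1
  obtain ⟨Y, m, hY⟩ := h2 sl
  have tr := fun z hz => (h3 sl Y hY.P g hg).2 z hz
  obtain ⟨jk0, jk6, ejk⟩ := ip0 sl hj hk hfy
  have ik1 := ip1 sl hi hk hzy
  have hP : σ.P (sl.e g) := P_of_R σ hPy.1 hPy.2
  have hbit := (hY.P g hg).2 hP
  have hreg := hY.reg g hg hbit hx
  have hc := run chkFY_true hY.mem hg hreg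
  have l1 := T_lt g hg k hk
  have l2 := T_lt _ l1 j hj
  have l3 := T_lt _ l2 i hi
  rw [sl.eT g hg _ hk, sl.eT _ l1 _ hj] at hfyP ⊢
  rw [sl.eT _ l2 _ hi]
  unfold chkFY at hc
  have c1 := List.all_eq_true.1 hc j (mem_r6 hj)
  rw [(tr j hj).1.2 hA.2.1] at c1
  simp only [Bool.not_true, Bool.false_or] at c1
  have c2 := List.all_eq_true.1 c1 i (mem_r6 hi)
  rw [((tr i hi).2.2.2 j hj).1.2 hA] at c2
  simp only [Bool.not_true, beq_self_eq_true, Bool.false_or] at c2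
  have c3 := List.all_eq_true.1 c2 k (mem_r6 hk)
  rw [(tr k hk).1.2 hPy, ik1, jk0, (hY.P _ l2).2 hfyP] at c3
  simp only [Bool.not_true, beq_self_eq_true, Bool.false_or] at c3
  exact (hY.P _ l3).1 c3

theorem f1aux (h2 : S_SLY σ) (h3 : S_TR σ) (sl : Slice σ) {g : ℕ} (hg : g < 24)
    (hx : σ.RegUp (sl.e g)) {i j k : ℕ} (hi : i < 6) (hj : j < 6) (hk : k < 6)
    (hC : σ.C6 (sl.e g) (sl.ρ i) (sl.ρ j)) (hA : σ.Arr (sl.e g) (sl.ρ i + sl.ρ j) (sl.ρ k)) :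
    σ.Arr (sl.e g) (sl.ρ i) (sl.ρ k) ∨ σ.Arr (sl.e g) (sl.ρ j) (sl.ρ k) ∨
      (σ.C6 (sl.e g) (sl.ρ i) (sl.ρ k) ∧ σ.Arr (sl.e g) (sl.ρ j) (sl.ρ k + sl.ρ i)) ∨
      (σ.C6 (sl.e g) (sl.ρ j) (sl.ρ k) ∧ σ.Arr (sl.e g) (sl.ρ i) (sl.ρ k + sl.ρ j)) := by
  obtain ⟨Y, m, hY⟩ := h2 sl
  have tr := fun z hz => (h3 sl Y hY.P g hg).2 z hz
  obtain ⟨ij0, ij6, eij⟩ := ip0 sl hi hj hC.2.2.1
  rw [eij] at hA
  have hP : σ.P (sl.e g) := P_of_R σ hC.1.1 hC.1.2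
  have hbit := (hY.P g hg).2 hP
  have hreg := hY.reg g hg hbit hx
  have hc := run chkF1_true hY.mem hg hreg
  unfold chkF1 at hc
  have c1 := List.all_eq_true.1 hc i (mem_r6 hi)
  rw [(tr i hi).1.2 hC.1] at c1
  simp only [Bool.not_true, Bool.false_or] at c1
  have c2 := List.all_eq_true.1 c1 j (mem_r6 hj)
  rw [((tr i hi).2.2.2 j hj).2.2.2 hC] at c2
  simp only [Bool.not_true, Bool.false_or] at c2
  have c3 := List.all_eq_true.1 c2 k (mem_r6 hk)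
  rw [((tr _ ij6).2.2.2 k hk).1.2 hA] at c3
  simp only [Bool.not_true, Bool.false_or, Bool.or_eq_true, Bool.and_eq_true] at c3
  rcases c3 with ((h | h) | ⟨h, h'⟩) | ⟨h, h'⟩
  · exact Or.inl (((tr i hi).2.2.2 k hk).1.1 h)
  · exact Or.inr (Or.inl (((tr j hj).2.2.2 k hk).1.1 h))
  · have q := ((tr i hi).2.2.2 k hk).2.2.1 h
    obtain ⟨-, l6, el⟩ := ip0 sl hk hi (by rw [σ.ip_symm]; exact q.2.2.1)
    refine Or.inr (Or.inr (Or.inl ⟨q, ?_⟩))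
    rw [el]
    exact ((tr j hj).2.2.2 _ l6).1.1 h'
  · have q := ((tr j hj).2.2.2 k hk).2.2.1 h
    obtain ⟨-, l6, el⟩ := ip0 sl hk hj (by rw [σ.ip_symm]; exact q.2.2.1)
    refine Or.inr (Or.inr (Or.inr ⟨q, ?_⟩))
    rw [el]
    exact ((tr i hi).2.2.2 _ l6).1.1 h'

theorem f1 (σ : Sys V X) (h1 : S_SLICE σ) (h2 : S_SLY σ) (h3 : S_TR σ) : S_F1 σ := by
  intro x hx c d b hC hA
  have g1 := σ.ip_ge hC.1.1.1 hA.2.1.1.1 hC.1.1.2.1 hA.2.1.1.2.1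
  have g2 := σ.ip_ge hC.2.1.1.1 hA.2.1.1.1 hC.2.1.1.2.1 hA.2.1.1.2.1
  have g3 := hA.2.2.1
  rw [σ.ip_add] at g3
  have key : ∃ sl : Slice σ, (∃ g < 24, sl.e g = x) ∧ sl.In c ∧ sl.In d ∧ sl.In b := by
    rcases (by omega : (σ.ip c b = -1 ∧ σ.ip d b = 0) ∨ (σ.ip c b = 0 ∧ σ.ip d b = -1)) with
      ⟨e1, e2⟩ | ⟨e1, e2⟩
    · obtain ⟨sl, hg, q1, q2, q3⟩ := h1 d hC.2.1.1.1 c hC.1.1.1 b hA.2.1.1.1
        (by rw [σ.ip_symm]; exact hC.2.2.1) e1 e2 x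
      exact ⟨sl, hg, q2, q1, q3⟩
    · exact h1 c hC.1.1.1 d hC.2.1.1.1 b hA.2.1.1.1 hC.2.2.1 e2 e1 x
  obtain ⟨sl, ⟨g, hg, rfl⟩, ic, id', ib⟩ := key
  obtain ⟨i, hi, rfl⟩ := ic.pos sl hC.1.1.2.1
  obtain ⟨j, hj, rfl⟩ := id'.pos sl hC.2.1.1.2.1
  obtain ⟨k, hk, rfl⟩ := ib.pos sl hA.2.1.1.2.1
  exact f1aux h2 h3 sl hg hx hi hj hk hC hA

end Pool.Agent.W368.DC
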